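import Pool.Agent.Lib.MP_1a5e21_co.Struct

set_option autoImplicit false

namespace Pool.Agent.Lib.MP_1a5e21_co

open Finset

theorem choose_step1 (M k Q : ℕ) (h : M ≤ Q * (k + 1)) : M.choose (k + 1) ≤ Q * M.choose k := by
  have h1 := Nat.choose_succ_right_eq M k
  have h2 : M.choose k * (M - k) ≤ M.choose k * (Q * (k + 1)) :=
    Nat.mul_le_mul_left _ ((Nat.sub_le _ _).trans h)
  rw [← h1] at h2
  have h3 : M.choose (k + 1) * (k + 1) ≤ (Q * M.choose k) * (k + 1) := by
    calc M.choose (k + 1) * (k + 1) ≤ M.choose k * (Q * (k + 1)) := h2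
      _ = (Q * M.choose k) * (k + 1) := by ring
  exact Nat.le_of_mul_le_mul_right h3 (Nat.succ_pos _)

theorem choose_step2 (M k Q : ℕ) (h : M + 1 ≤ Q * (k + 1)) :
    (M + 1).choose (k + 1) ≤ Q * M.choose k := by
  have h1 := Nat.add_one_mul_choose_eq M k
  have h2 : (M + 1) * M.choose k ≤ Q * (k + 1) * M.choose k := Nat.mul_le_mul_right _ h
  rw [h1] at h2
  have h3 : (M + 1).choose (k + 1) * (k + 1) ≤ (Q * M.choose k) * (k + 1) := by
    calc (M + 1).choose (k + 1) * (k + 1) ≤ Q * (k + 1) * M.choose k := h2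
      _ = (Q * M.choose k) * (k + 1) := by ring
  exact Nat.le_of_mul_le_mul_right h3 (Nat.succ_pos _)

theorem choose_A (M k Q i : ℕ) (h : M ≤ Q * k) : M.choose (k + i) ≤ Q ^ i * M.choose k := by
  induction i with
  | zero => simp
  | succ i ih =>
    have h1 : M ≤ Q * (k + i + 1) := h.trans (Nat.mul_le_mul_left _ (by omega))
    calc M.choose (k + (i + 1)) = M.choose (k + i + 1) := by rw [← Nat.add_assoc]
      _ ≤ Q * M.choose (k + i) := choose_step1 M (k + i) Q h1
      _ ≤ Q * (Q ^ i * M.choose k) := Nat.mul_le_mul_left _ ih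
      _ = Q ^ (i + 1) * M.choose k := by ring

theorem choose_B (k Q a : ℕ) : ∀ M : ℕ, M ≤ Q * k → a ≤ M →
    M.choose (k + a) ≤ Q ^ a * (M - a).choose k := by
  induction a with
  | zero => intro M _ _; simp
  | succ a ih =>
    intro M h ha
    obtain ⟨M', rfl⟩ : ∃ M', M = M' + 1 := ⟨M - 1, by omega⟩
    have h1 : M' + 1 ≤ Q * (k + a + 1) := h.trans (Nat.mul_le_mul_left _ (by omega))
    have h2 := ih M' (by omega) (by omega)
    have h3 : M' + 1 - (a + 1) = M' - a := by omega
    rw [h3]
    calc (M' + 1).choose (k + (a + 1)) = (M' + 1).choose (k + a + 1) := by rw [← Nat.add_assoc]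
      _ ≤ Q * M'.choose (k + a) := choose_step2 M' (k + a) Q h1
      _ ≤ Q * (Q ^ a * (M' - a).choose k) := Nat.mul_le_mul_left _ h2
      _ = Q ^ (a + 1) * (M' - a).choose k := by ring

theorem sum_inj {A B : Type} [DecidableEq B] (s : Finset A) (t : Finset B) (f : A → B)
    (hf : ∀ a ∈ s, f a ∈ t) (inj : Set.InjOn f s) (u : A → ℕ) (v : B → ℕ)
    (h : ∀ a ∈ s, u a ≤ v (f a)) : ∑ a ∈ s, u a ≤ ∑ b ∈ t, v b := by
  calc ∑ a ∈ s, u a ≤ ∑ a ∈ s, v (f a) := Finset.sum_le_sum h
    _ = ∑ b ∈ s.image f, v b := by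
      rw [Finset.sum_image]
      exact inj
    _ ≤ ∑ b ∈ t, v b := by
      apply Finset.sum_le_sum_of_subset
      intro b hb
      rw [Finset.mem_image] at hb
      obtain ⟨a, ha, rfl⟩ := hb
      exact hf a ha

section
variable {ι κ Y : Type} [Fintype ι] [DecidableEq ι] [Fintype κ] [DecidableEq κ]
  [Fintype Y] [DecidableEq Y]

def sz (z : ι → Finset κ) : ℕ := ∑ j, (z j).card

/-- number of ways to complete `z` by a subset of `Y` containing `A` -/
def gA (Y : Type) [Fintype Y] [DecidableEq Y] (w : ℕ) (A : Finset Y) (z : ι → Finset κ) : ℕ :=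
  (univ.filter (fun P : Finset Y => A ⊆ P ∧ sz z + P.card = w)).card

omit [DecidableEq ι] [Fintype κ] [DecidableEq κ] in
theorem gA_empty (w : ℕ) (z : ι → Finset κ) (hz : sz z ≤ w) :
    gA Y w ∅ z = (Fintype.card Y).choose (w - sz z) := by
  unfold gA
  have : (univ.filter (fun P : Finset Y => ∅ ⊆ P ∧ sz z + P.card = w))
      = Finset.powersetCard (w - sz z) (univ : Finset Y) := by
    ext P
    simp only [Finset.mem_filter, Finset.mem_univ, true_and, Finset.empty_subset,
      Finset.mem_powersetCard, Finset.subset_univ]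
    omega
  rw [this, Finset.card_powersetCard, Finset.card_univ]

omit [DecidableEq ι] [Fintype κ] [DecidableEq κ] in
theorem gA_ge (w k0 : ℕ) (A : Finset Y) (z : ι → Finset κ) (hz : sz z + (k0 + A.card) = w) :
    (Fintype.card Y - A.card).choose k0 ≤ gA Y w A z := by
  unfold gA
  have h1 : (Finset.powersetCard k0 (univ \ A)).card = (Fintype.card Y - A.card).choose k0 := by
    rw [Finset.card_powersetCard, Finset.card_univ_sdiff]
  rw [← h1]
  apply Finset.card_le_card_of_injOn (fun P => A ∪ P)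
  · intro P hP
    rw [Finset.mem_coe, Finset.mem_powersetCard] at hP
    simp only [Finset.coe_filter, Finset.mem_univ, true_and, Set.mem_ofPred_eq]
    refine ⟨Finset.subset_union_left, ?_⟩
    rw [Finset.card_union_of_disjoint, hP.2]
    · omega
    · rw [Finset.disjoint_left]
      intro x hx hx'
      have := hP.1 hx'
      rw [Finset.mem_sdiff] at this
      exact this.2 hx
  · intro P hP P' hP' heq
    rw [Finset.mem_coe, Finset.mem_powersetCard] at hP hP'
    simp only at heq
    ext x
    have hx1 : x ∈ P → x ∉ A := fun h => (Finset.mem_sdiff.mp (hP.1 h)).2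
    have hx2 : x ∈ P' → x ∉ A := fun h => (Finset.mem_sdiff.mp (hP'.1 h)).2
    have hx3 : x ∈ A ∪ P ↔ x ∈ A ∪ P' := by rw [heq]
    rw [Finset.mem_union, Finset.mem_union] at hx3
    constructor
    · intro h
      rcases hx3.1 (Or.inr h) with h' | h'
      · exact absurd h' (hx1 h)
      · exact h'
    · intro h
      rcases hx3.2 (Or.inr h) with h' | h'
      · exact absurd h' (hx2 h)
      · exact h'

omit [DecidableEq ι] [Fintype κ] [DecidableEq κ] in
theorem gA_compare (w B0 a0 Q i : ℕ) (hQ : 1 ≤ Q) (hM : Fintype.card Y ≤ Q * (w - B0 - a0))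
    (A : Finset Y) (hA : A.card ≤ a0) (hw : B0 + a0 ≤ w)
    (z z' : ι → Finset κ) (h1 : sz z ≤ sz z') (h2 : sz z' ≤ sz z + i) (h3 : sz z' ≤ B0) :
    gA Y w ∅ z ≤ Q ^ (i + a0) * gA Y w A z' := by
  rw [gA_empty w z (by omega)]
  have hk : w - sz z = (w - sz z' - A.card) + A.card + (sz z' - sz z) := by omega
  set k0 := w - sz z' - A.card with hk0
  have hk0' : w - B0 - a0 ≤ k0 := by omega
  have hM1 : Fintype.card Y ≤ Q * k0 := hM.trans (Nat.mul_le_mul_left _ hk0')
  have hM2 : Fintype.card Y ≤ Q * (k0 + A.card) :=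
    hM1.trans (Nat.mul_le_mul_left _ (by omega))
  have hc1 := choose_A (Fintype.card Y) (k0 + A.card) Q (sz z' - sz z) hM2
  have hc2 := choose_B k0 Q A.card (Fintype.card Y) hM1 (Finset.card_le_univ A)
  have hc3 := gA_ge w k0 A z' (by omega)
  rw [hk]
  calc (Fintype.card Y).choose (k0 + A.card + (sz z' - sz z))
      ≤ Q ^ (sz z' - sz z) * (Fintype.card Y).choose (k0 + A.card) := hc1
    _ ≤ Q ^ (sz z' - sz z) * (Q ^ A.card * (Fintype.card Y - A.card).choose k0) :=
        Nat.mul_le_mul_left _ hc2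
    _ ≤ Q ^ i * (Q ^ a0 * gA Y w A z') := by
        apply Nat.mul_le_mul
        · exact Nat.pow_le_pow_right hQ (by omega)
        · apply Nat.mul_le_mul
          · exact Nat.pow_le_pow_right hQ hA
          · exact hc3
    _ = Q ^ (i + a0) * gA Y w A z' := by ring

/-- counting the objects by their block part -/
theorem card_VV (w : ℕ) (Pz : (ι → Finset κ) → Prop) [DecidablePred Pz] (A : Finset Y) :
    (univ.filter (fun p : VV ι κ Y w => Pz p.1.1 ∧ A ⊆ p.1.2)).card
      = ∑ z ∈ univ.filter Pz, gA Y w A z := by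
  classical
  rw [Finset.card_eq_sum_card_fiberwise (f := fun p : VV ι κ Y w => p.1.1)
    (t := univ.filter Pz)]
  · apply Finset.sum_congr rfl
    intro z hz
    simp only [Finset.mem_filter, Finset.mem_univ, true_and] at hz
    unfold gA
    apply Finset.card_bij (fun (p : VV ι κ Y w) _ => p.1.2)
    · intro p hp
      simp only [Finset.mem_filter, Finset.mem_univ, true_and] at hp ⊢
      refine ⟨hp.1.2, ?_⟩
      have := p.2
      unfold size at this
      rw [← hp.2]
      exact this
    · intro p hp q hq heq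
      simp only [Finset.mem_filter, Finset.mem_univ, true_and] at hp hq
      apply Subtype.ext
      apply Prod.ext
      · rw [hp.2, hq.2]
      · exact heq
    · intro P hP
      simp only [Finset.mem_filter, Finset.mem_univ, true_and] at hP
      refine ⟨⟨(z, P), hP.2⟩, ?_, rfl⟩
      simp only [Finset.mem_filter, Finset.mem_univ, true_and, and_true]
      exact ⟨hz, hP.1⟩
  · intro p hp
    simp only [Finset.coe_filter, Finset.mem_univ, true_and, Set.mem_ofPred_eq] at hp ⊢
    exact hp.1

end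

end Pool.Agent.Lib.MP_1a5e21_co
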