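import Mathlib

set_option autoImplicit false

namespace Pool.Agent.Lib.MP_1a5e21_co

open Finset

abbrev Idx (n : ℕ) := Fin n ⊕ Finset (Fin n)

abbrev Lab (n q : ℕ) := Idx n → Fin q

abbrev YY (n q L : ℕ) := Option (Lab n q × Fin L)

section
variable {n q L : ℕ} [NeZero q]

open Classical in
/-- the coordinates which never vanish on `P` -/
noncomputable def dfc (P : Finset (YY n q L)) : Finset (Idx n) :=
  univ.filter (fun i => ∀ x l, some (x, l) ∈ P → x i ≠ 0)

open Classical in
/-- the slab of points whose coordinate `i` vanishes, with one extra point -/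
noncomputable def slab (i : Idx n) : Finset (YY n q L) :=
  univ.filter (fun y => ∀ x l, y = some (x, l) → x i = 0)

theorem none_mem_slab (i : Idx n) : (none : YY n q L) ∈ slab (L := L) (q := q) i := by
  simp [slab]

theorem mem_dfc_of_disjoint (P : Finset (YY n q L)) (i : Idx n) (h : Disjoint P (slab i)) :
    i ∈ dfc P := by
  simp only [dfc, Finset.mem_filter, Finset.mem_univ, true_and]
  intro x l hx hi
  apply Finset.disjoint_left.mp h hx
  simp only [slab, Finset.mem_filter, Finset.mem_univ, true_and]
  intro x' l' he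
  simp only [Option.some.injEq, Prod.mk.injEq] at he
  rw [← he.1]
  exact hi

theorem card_slab (i : Idx n) :
    (slab (L := L) (q := q) i).card ≤ 1 + q ^ (Fintype.card (Idx n) - 1) * L := by
  classical
  let F : Finset (Lab n q) := Fintype.piFinset (fun k => if k = i then {0} else univ)
  have hF : F.card = q ^ (Fintype.card (Idx n) - 1) := by
    rw [Fintype.card_piFinset]
    rw [← Finset.mul_prod_erase univ _ (Finset.mem_univ i)]
    simp only [if_true, Finset.card_singleton, one_mul]
    rw [Finset.prod_congr rfl (g := fun _ => q)]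
    · rw [Finset.prod_const, Finset.card_erase_of_mem (Finset.mem_univ i), Finset.card_univ]
    · intro k hk
      rw [if_neg (Finset.ne_of_mem_erase hk)]
      simp
  have hsub : slab (L := L) (q := q) i ⊆
      insert none ((F ×ˢ (univ : Finset (Fin L))).image some) := by
    intro y hy
    simp only [slab, Finset.mem_filter, Finset.mem_univ, true_and] at hy
    rcases y with _ | ⟨x, l⟩
    · exact Finset.mem_insert_self _ _
    · apply Finset.mem_insert_of_mem
      rw [Finset.mem_image]
      refine ⟨(x, l), ?_, rfl⟩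
      rw [Finset.mem_product]
      refine ⟨?_, Finset.mem_univ _⟩
      rw [Fintype.mem_piFinset]
      intro k
      by_cases hk : k = i
      · rw [if_pos hk, hk, Finset.mem_singleton]
        exact hy x l rfl
      · rw [if_neg hk]
        exact Finset.mem_univ _
  calc (slab (L := L) (q := q) i).card
      ≤ (insert none ((F ×ˢ (univ : Finset (Fin L))).image some)).card :=
        Finset.card_le_card hsub
    _ ≤ ((F ×ˢ (univ : Finset (Fin L))).image some).card + 1 := Finset.card_insert_le _ _
    _ ≤ (F ×ˢ (univ : Finset (Fin L))).card + 1 := by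
        have := Finset.card_image_le (s := F ×ˢ (univ : Finset (Fin L)))
          (f := (some : Lab n q × Fin L → YY n q L))
        omega
    _ = 1 + q ^ (Fintype.card (Idx n) - 1) * L := by
        rw [Finset.card_product, hF, Finset.card_univ, Fintype.card_fin]; ring

theorem card_dfc (P : Finset (YY n q L)) (K N0 : ℕ) (hP : N0 ≤ P.card)
    (h : 1 + (q - 1) ^ (K + 1) * q ^ (Fintype.card (Idx n) - (K + 1)) * L < N0) :
    (dfc P).card ≤ K := by
  classical
  by_contra hcon
  have hcon' : K + 1 ≤ (dfc P).card := by omega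
  obtain ⟨D, hD, hDc⟩ := Finset.exists_subset_card_eq hcon'
  let F : Finset (Lab n q) := Fintype.piFinset (fun k => if k ∈ D then univ.erase 0 else univ)
  have hF : F.card = (q - 1) ^ (K + 1) * q ^ (Fintype.card (Idx n) - (K + 1)) := by
    rw [Fintype.card_piFinset]
    have h1 : ∀ k : Idx n, (if k ∈ D then (univ : Finset (Fin q)).erase 0 else univ).card
        = if k ∈ D then q - 1 else q := by
      intro k
      by_cases hk : k ∈ D
      · rw [if_pos hk, if_pos hk, Finset.card_erase_of_mem (Finset.mem_univ _), Finset.card_univ,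
          Fintype.card_fin]
      · rw [if_neg hk, if_neg hk, Finset.card_univ, Fintype.card_fin]
    rw [Finset.prod_congr rfl (fun k _ => h1 k), Finset.prod_ite, Finset.prod_const,
      Finset.prod_const]
    have h2 : univ.filter (fun k => k ∈ D) = D := by ext; simp
    have h3 : univ.filter (fun k => k ∉ D) = univ \ D := by ext; simp
    rw [h2, h3, hDc, Finset.card_univ_sdiff, hDc]
  have hsub : P ⊆ insert none ((F ×ˢ (univ : Finset (Fin L))).image some) := by
    intro y hy
    rcases y with _ | ⟨x, l⟩
    · exact Finset.mem_insert_self _ _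
    · apply Finset.mem_insert_of_mem
      rw [Finset.mem_image]
      refine ⟨(x, l), ?_, rfl⟩
      rw [Finset.mem_product]
      refine ⟨?_, Finset.mem_univ _⟩
      rw [Fintype.mem_piFinset]
      intro k
      by_cases hk : k ∈ D
      · rw [if_pos hk, Finset.mem_erase]
        have h4 := hD hk
        simp only [dfc, Finset.mem_filter, Finset.mem_univ, true_and] at h4
        exact ⟨h4 x l hy, Finset.mem_univ _⟩
      · rw [if_neg hk]
        exact Finset.mem_univ _
  have hc : P.card ≤ 1 + (q - 1) ^ (K + 1) * q ^ (Fintype.card (Idx n) - (K + 1)) * L := by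
    calc P.card ≤ (insert none ((F ×ˢ (univ : Finset (Fin L))).image some)).card :=
          Finset.card_le_card hsub
      _ ≤ ((F ×ˢ (univ : Finset (Fin L))).image some).card + 1 := Finset.card_insert_le _ _
      _ ≤ (F ×ˢ (univ : Finset (Fin L))).card + 1 := by
          have := Finset.card_image_le (s := F ×ˢ (univ : Finset (Fin L)))
            (f := (some : Lab n q × Fin L → YY n q L))
          omega
      _ = _ := by
          rw [Finset.card_product, hF, Finset.card_univ, Fintype.card_fin]; ring
  omega

theorem labels (n q L K N0 : ℕ) [NeZero q] (hn : K * K < n)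
    (h : 1 + (q - 1) ^ (K + 1) * q ^ (Fintype.card (Idx n) - (K + 1)) * L < N0) :
    ∃ α β : Finset (YY n q L) → Finset (YY n q L),
      (∀ P Q : Finset (YY n q L), N0 ≤ P.card → N0 ≤ Q.card →
        ¬ (Disjoint P (α Q) ∧ Disjoint (β P) Q)) ∧
      (∃ y0, ∀ Q, y0 ∈ α Q) ∧ (∃ y0, ∀ Q, y0 ∈ β Q) ∧
      (∀ Q, (α Q).card ≤ 1 + q ^ (Fintype.card (Idx n) - 1) * L) ∧
      (∀ Q, (β Q).card ≤ 1 + q ^ (Fintype.card (Idx n) - 1) * L) := by
  classical
  have hu : ∀ Q : Finset (YY n q L), ∃ u : Fin n, N0 ≤ Q.card →
      ∀ X : Finset (Fin n), Sum.inr X ∈ dfc Q → X.card ≤ K → u ∉ X := by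
    intro Q
    by_cases hQ : N0 ≤ Q.card
    · have hd := card_dfc Q K N0 hQ h
      let 𝒳 : Finset (Finset (Fin n)) := univ.filter (fun X => Sum.inr X ∈ dfc Q ∧ X.card ≤ K)
      have h1 : 𝒳.card ≤ (dfc Q).card := by
        apply Finset.card_le_card_of_injOn (fun X => (Sum.inr X : Idx n))
        · intro X hX
          simp only [𝒳, Finset.coe_filter, Finset.mem_univ, true_and, Set.mem_ofPred_eq] at hX
          exact hX.1
        · intro X _ X' _ he
          simpa using he
      have h2 : (𝒳.biUnion id).card ≤ K * K := by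
        calc (𝒳.biUnion id).card ≤ ∑ X ∈ 𝒳, X.card := Finset.card_biUnion_le
          _ ≤ ∑ _X ∈ 𝒳, K := by
              apply Finset.sum_le_sum
              intro X hX
              simp only [𝒳, Finset.mem_filter, Finset.mem_univ, true_and] at hX
              exact hX.2
          _ = 𝒳.card * K := by rw [Finset.sum_const, smul_eq_mul]
          _ ≤ K * K := Nat.mul_le_mul_right _ (h1.trans hd)
      have h3 : (𝒳.biUnion id).card < (univ : Finset (Fin n)).card := by
        rw [Finset.card_univ, Fintype.card_fin]; omega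
      obtain ⟨u, -, hu⟩ := Finset.exists_mem_notMem_of_card_lt_card h3
      refine ⟨u, fun _ X hX1 hX2 huX => hu ?_⟩
      rw [Finset.mem_biUnion]
      exact ⟨X, by simp [𝒳, hX1, hX2], huX⟩
    · exact ⟨⟨0, by omega⟩, fun hQ' => absurd hQ' hQ⟩
  choose u hu using hu
  let Xs : Finset (YY n q L) → Finset (Fin n) := fun P => univ.filter (fun v => Sum.inl v ∈ dfc P)
  refine ⟨fun Q => slab (Sum.inl (u Q)), fun P => slab (Sum.inr (Xs P)), ?_,
    ⟨none, fun Q => none_mem_slab _⟩, ⟨none, fun Q => none_mem_slab _⟩,
    fun Q => card_slab _, fun Q => card_slab _⟩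
  rintro P Q hP hQ ⟨h1, h2⟩
  have h3 : (Sum.inl (u Q) : Idx n) ∈ dfc P := mem_dfc_of_disjoint P _ h1
  have h4 : (Sum.inr (Xs P) : Idx n) ∈ dfc Q := mem_dfc_of_disjoint Q _ h2.symm
  have h5 : (Xs P).card ≤ K := by
    refine le_trans ?_ (card_dfc P K N0 hP h)
    apply Finset.card_le_card_of_injOn (fun v => (Sum.inl v : Idx n))
    · intro v hv
      simp only [Xs, Finset.coe_filter, Finset.mem_univ, true_and, Set.mem_ofPred_eq] at hv
      exact hv
    · intro v _ v' _ he
      simpa using he
  exact hu Q hQ (Xs P) h4 h5 (by simp [Xs, h3])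

end

end Pool.Agent.Lib.MP_1a5e21_co
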