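import Pool.Agent.Lib.MP_1a5e21_co.Sizes
import Pool.Agent.Lib.MP_1a5e21_co.Labels

set_option autoImplicit false

namespace Pool.Agent.Lib.MP_1a5e21_co

open Finset

section
variable {ι κ Y : Type} [Fintype ι] [DecidableEq ι] [Fintype κ] [DecidableEq κ]
  [Fintype Y] [DecidableEq Y]

/-- the block form of a subset of `Fin m` -/
def toObj {m : ℕ} (e : Fin m ≃ (ι × κ) ⊕ Y) (s : Finset (Fin m)) : Obj ι κ Y :=
  (fun j => univ.filter (fun i => e.symm (Sum.inl (j, i)) ∈ s),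
    univ.filter (fun y => e.symm (Sum.inr y) ∈ s))

def ofObj {m : ℕ} (e : Fin m ≃ (ι × κ) ⊕ Y) (p : Obj ι κ Y) : Finset (Fin m) :=
  univ.filter (fun x => (∃ j i, e x = Sum.inl (j, i) ∧ i ∈ p.1 j) ∨
    (∃ y, e x = Sum.inr y ∧ y ∈ p.2))

theorem size_toObj {m : ℕ} (e : Fin m ≃ (ι × κ) ⊕ Y) (s : Finset (Fin m)) :
    size (toObj e s) = s.card := by
  classical
  have h1 : s.card = ∑ x : Fin m, (if x ∈ s then 1 else 0) := by
    rw [Finset.sum_ite_mem]; simp
  rw [h1, ← Equiv.sum_comp e.symm (fun x => if x ∈ s then 1 else 0), Fintype.sum_sum_type,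
    Fintype.sum_prod_type]
  unfold size toObj
  simp only [Finset.card_filter]

theorem of_toObj {m : ℕ} (e : Fin m ≃ (ι × κ) ⊕ Y) (s : Finset (Fin m)) :
    ofObj e (toObj e s) = s := by
  ext x
  simp only [ofObj, toObj, Finset.mem_filter, Finset.mem_univ, true_and]
  constructor
  · rintro (⟨j, i, hx, hi⟩ | ⟨y, hx, hy⟩)
    · rw [← hx] at hi; simpa using hi
    · rw [← hx] at hy; simpa using hy
  · intro hx
    rcases hex : e x with ⟨j, i⟩ | y
    · left
      refine ⟨j, i, rfl, ?_⟩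
      rw [← hex]; simpa using hx
    · right
      refine ⟨y, rfl, ?_⟩
      rw [← hex]; simpa using hx

theorem to_ofObj {m : ℕ} (e : Fin m ≃ (ι × κ) ⊕ Y) (p : Obj ι κ Y) :
    toObj e (ofObj e p) = p := by
  apply Prod.ext
  · funext j
    ext i
    simp [ofObj, toObj]
  · ext y
    simp [ofObj, toObj]

theorem dj_toObj {m : ℕ} (e : Fin m ≃ (ι × κ) ⊕ Y) (s t : Finset (Fin m)) (h : Disjoint s t) :
    Dj (toObj e s) (toObj e t) := by
  constructor
  · intro j
    rw [Finset.disjoint_left]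
    intro i hi hi'
    simp only [toObj, Finset.mem_filter, Finset.mem_univ, true_and] at hi hi'
    exact Finset.disjoint_left.mp h hi hi'
  · rw [Finset.disjoint_left]
    intro y hy hy'
    simp only [toObj, Finset.mem_filter, Finset.mem_univ, true_and] at hy hy'
    exact Finset.disjoint_left.mp h hy hy'

def eqv {m : ℕ} (e : Fin m ≃ (ι × κ) ⊕ Y) (w : ℕ) :
    {s : Finset (Fin m) // s.card = w} ≃ VV ι κ Y w where
  toFun s := ⟨toObj e s.1, by rw [size_toObj]; exact s.2⟩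
  invFun p := ⟨ofObj e p.1, by rw [← size_toObj e, to_ofObj]; exact p.2⟩
  left_inv s := Subtype.ext (of_toObj e s.1)
  right_inv p := Subtype.ext (to_ofObj e p.1)

theorem transfer {m : ℕ} (e : Fin m ≃ (ι × κ) ⊕ Y) (w : ℕ)
    (h : ∃ σ : Equiv.Perm (VV ι κ Y w), ∀ p q, Dj p.1 q.1 → ¬ Dj (σ p).1 (σ q).1) :
    ∃ σ : Equiv.Perm {s : Finset (Fin m) // s.card = w},
        ∀ s t : {s : Finset (Fin m) // s.card = w},
          Disjoint s.1 t.1 → ¬ Disjoint (σ s).1 (σ t).1 := by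
  obtain ⟨σ, hσ⟩ := h
  refine ⟨((eqv e w).trans σ).trans (eqv e w).symm, fun s t hst hst' => ?_⟩
  have h1 : Dj ((eqv e w) s).1 ((eqv e w) t).1 := dj_toObj e s.1 t.1 hst
  have h2 := dj_toObj e _ _ hst'
  apply hσ _ _ h1
  have h3 : ∀ s, (σ ((eqv e w) s)).1
      = toObj e ((((eqv e w).trans σ).trans (eqv e w).symm) s).1 := by
    intro s
    have : (eqv e w) ((((eqv e w).trans σ).trans (eqv e w).symm) s) = σ ((eqv e w) s) := by
      simp
    rw [← this]
    rfl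
  rw [h3 s, h3 t]
  exact h2

end

theorem bern (r n : ℕ) : r ^ n * (r + n) ≤ r * (r + 1) ^ n := by
  induction n with
  | zero => simp
  | succ n ih =>
    calc r ^ (n + 1) * (r + (n + 1)) ≤ (r + 1) * (r ^ n * (r + n)) := by
          have : r ^ (n + 1) * (r + (n + 1)) + r ^ n * n = (r + 1) * (r ^ n * (r + n)) := by ring
          omega
      _ ≤ (r + 1) * (r * (r + 1) ^ n) := Nat.mul_le_mul_left _ ih
      _ = r * (r + 1) ^ (n + 1) := by ring

theorem main (D : ℕ) (hD : 1 ≤ D) : ∃ m w : ℕ, 1 ≤ w ∧ w < m ∧ D * w < m ∧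
    ∃ σ : Equiv.Perm {s : Finset (Fin m) // s.card = w},
        ∀ s t : {s : Finset (Fin m) // s.card = w},
          Disjoint s.1 t.1 → ¬ Disjoint (σ s).1 (σ t).1 := by
  classical
  obtain ⟨Q, hQ⟩ : ∃ Q, Q = 3 * D := ⟨_, rfl⟩
  obtain ⟨b, hb⟩ : ∃ b, b = 16 * Q ^ 3 := ⟨_, rfl⟩
  obtain ⟨c1, hc1⟩ : ∃ c1, c1 = 2 * Q * (2 * Q) ^ b := ⟨_, rfl⟩
  obtain ⟨q, hq⟩ : ∃ q, q = 8 * D * b * c1 + 2 := ⟨_, rfl⟩
  obtain ⟨K, hK⟩ : ∃ K, K = 4 * D * q - 1 := ⟨_, rfl⟩
  obtain ⟨n, hn⟩ : ∃ n, n = K * K + 1 := ⟨_, rfl⟩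
  obtain ⟨L, hL⟩ : ∃ L, L = 4 * D * b * c1 := ⟨_, rfl⟩
  have hQ1 : 1 ≤ Q := by omega
  have hb1 : 16 ≤ b := by
    rw [hb]
    have : 1 ≤ Q ^ 3 := Nat.one_le_pow _ _ hQ1
    omega
  have hc1b : 2 * b + 2 ≤ c1 := by
    rw [hc1]
    have h1 : b < 2 ^ b := Nat.lt_two_pow_self
    have h2 : 2 ^ b ≤ (2 * Q) ^ b := Nat.pow_le_pow_left (by omega) b
    calc 2 * b + 2 = 2 * (b + 1) := by ring
      _ ≤ 2 * Q * (2 * Q) ^ b := Nat.mul_le_mul (by omega) (by omega)
  have hq2 : 2 ≤ q := by omega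
  haveI : NeZero q := ⟨by omega⟩
  haveI : NeZero b := ⟨by omega⟩
  have hDq : 8 ≤ 4 * D * q := by
    calc 8 = 4 * 1 * 2 := by norm_num
      _ ≤ 4 * D * q := Nat.mul_le_mul (Nat.mul_le_mul_left _ hD) hq2
  have hK1 : K + 1 = 4 * D * q := by omega
  obtain ⟨N, hN⟩ : ∃ N, N = Fintype.card (Idx n) := ⟨_, rfl⟩
  have hNK : K + 1 ≤ N := by
    rw [hN, Fintype.card_sum, Fintype.card_fin]
    have : K ≤ K * K := Nat.le_mul_self K
    omega
  have hNpos : 1 ≤ N := by omega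
  obtain ⟨j, hj⟩ : ∃ j, j = q ^ N := ⟨_, rfl⟩
  have hj1 : 1 ≤ j := by rw [hj]; exact Nat.one_le_pow _ _ (by omega)
  obtain ⟨T, hT⟩ : ∃ T, T = j * c1 := ⟨_, rfl⟩
  obtain ⟨w, hw⟩ : ∃ w, w = 4 * (b * T) := ⟨_, rfl⟩
  have hTj : j + (2 * b + 1) ≤ T := by
    rw [hT]
    have h1 : j * (2 * b + 2) ≤ j * c1 := Nat.mul_le_mul_left _ hc1b
    have h2 : 1 * (2 * b + 1) ≤ j * (2 * b + 1) := Nat.mul_le_mul_right _ hj1
    have h3 : j * (2 * b + 2) = j + j * (2 * b + 1) := by ring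
    omega
  have hbT : T ≤ b * T := by
    calc T = 1 * T := by ring
      _ ≤ b * T := Nat.mul_le_mul_right _ (by omega)
  -- cardinalities
  have hcardC1 : Fintype.card (Lab n q) = j := by
    rw [Fintype.card_fun, Fintype.card_fin, hj, hN]
  have hcardι : Fintype.card (Lab n q × Fin c1) = T := by
    rw [Fintype.card_prod, hcardC1, Fintype.card_fin, hT]
  have hcardY : Fintype.card (YY n q L) = j * L + 1 := by
    rw [Fintype.card_option, Fintype.card_prod, hcardC1, Fintype.card_fin]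
  have hjL : j * L = 4 * D * (b * T) := by
    rw [hL, hT]; ring
  have hcardκ : Fintype.card (Fin b) = b := Fintype.card_fin b
  -- labels
  have hlab : 1 + (q - 1) ^ (K + 1) * q ^ (Fintype.card (Idx n) - (K + 1)) * L < 3 * (b * T) := by
    rw [← hN, hK1]
    obtain ⟨r, hr⟩ : ∃ r, q = r + 1 := ⟨q - 1, by omega⟩
    have hr1 : 1 ≤ r := by omega
    have h1 := bern r (4 * D * q)
    have h2 : r * (r ^ (4 * D * q) * (4 * D)) ≤ r * q ^ (4 * D * q) := by
      calc r * (r ^ (4 * D * q) * (4 * D)) = r ^ (4 * D * q) * (4 * D * r) := by ring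
        _ ≤ r ^ (4 * D * q) * (r + 4 * D * q) := by
            apply Nat.mul_le_mul_left
            have : 4 * D * r ≤ 4 * D * q := Nat.mul_le_mul_left _ (by omega)
            omega
        _ ≤ r * (r + 1) ^ (4 * D * q) := h1
        _ = r * q ^ (4 * D * q) := by rw [hr]
    have h3 : r ^ (4 * D * q) * (4 * D) ≤ q ^ (4 * D * q) :=
      Nat.le_of_mul_le_mul_left h2 (by omega)
    have h4 : q - 1 = r := by omega
    rw [h4]
    have h5 : r ^ (4 * D * q) * q ^ (N - 4 * D * q) * L ≤ b * T := by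
      calc r ^ (4 * D * q) * q ^ (N - 4 * D * q) * L
          = (r ^ (4 * D * q) * (4 * D)) * (q ^ (N - 4 * D * q) * (b * c1)) := by
            rw [hL]; ring
        _ ≤ q ^ (4 * D * q) * (q ^ (N - 4 * D * q) * (b * c1)) := Nat.mul_le_mul_right _ h3
        _ = q ^ (4 * D * q + (N - 4 * D * q)) * (b * c1) := by rw [pow_add]; ring
        _ = b * T := by
            have : 4 * D * q + (N - 4 * D * q) = N := by omega
            rw [this, hT, hj]; ring
    omega
  obtain ⟨α, β, hab, hα, hβ, hαc, hβc⟩ :=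
    labels n q L K (3 * (b * T)) (by omega) hlab
  have hcard : ∀ P P' : Finset (YY n q L), (α P ∪ β P').card ≤ j := by
    intro P P'
    have h1 := hαc P
    have h2 := hβc P'
    have h3 := Finset.card_union_le (α P) (β P')
    rw [← hN] at h1 h2
    have h4 : 2 * (1 + q ^ (N - 1) * L) ≤ j := by
      have e1 : j = q ^ (N - 1) * q := by
        rw [hj, ← pow_succ]; congr 1; omega
      rw [e1]
      have e2 : q ^ (N - 1) * q = q ^ (N - 1) * (2 * L) + q ^ (N - 1) * 2 := by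
        have : q = 2 * L + 2 := by rw [hq, hL]; ring
        calc q ^ (N - 1) * q = q ^ (N - 1) * (2 * L + 2) := by rw [← this]
          _ = _ := by ring
      rw [e2]
      have e3 : 1 ≤ q ^ (N - 1) := Nat.one_le_pow _ _ (by omega)
      have e4 : q ^ (N - 1) * (2 * L) = 2 * (q ^ (N - 1) * L) := by ring
      omega
    omega
  have hM : Fintype.card (YY n q L) ≤
      Q * (w - Fintype.card (Fin b) * Fintype.card (Lab n q × Fin c1) - j) := by
    rw [hcardY, hcardκ, hcardι, hjL, hQ]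
    have e1 : 2 * (b * T) ≤ w - b * T - j := by omega
    have e2 : 3 * D * (2 * (b * T)) ≤ 3 * D * (w - b * T - j) := Nat.mul_le_mul_left _ e1
    have e3 : 1 * 1 ≤ D * (b * T) := Nat.mul_le_mul hD (by omega)
    have e4 : 3 * D * (2 * (b * T)) = 6 * (D * (b * T)) := by ring
    have e5 : 4 * D * (b * T) = 4 * (D * (b * T)) := by ring
    omega
  have hw' : Fintype.card (Fin b) * Fintype.card (Lab n q × Fin c1) + j ≤ w := by
    rw [hcardκ, hcardι]; omega
  haveI hne : Nonempty (Lab n q) := inferInstance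
  haveI : Nonempty (Fin c1) := ⟨⟨0, by omega⟩⟩
  haveI : Nonempty (Lab n q × Fin c1) := inferInstance
  have hpack : ∃ σ : Equiv.Perm (VV (Lab n q × Fin c1) (Fin b) (YY n q L) w),
      ∀ p q, Dj p.1 q.1 → ¬ Dj (σ p).1 (σ q).1 := by
    refine pack w (3 * (b * T)) α β ?_ hab hα hβ ?_ ?_
    · intro p hp
      have h1 := sz_le p.1
      rw [hcardκ, hcardι] at h1
      unfold size at hp
      unfold sz at h1
      omega
    · intro P P'
      refine size1 w j Q hQ1 hM (α P ∪ β P') (hcard P P') hw' (by rw [hcardκ, hb]) ?_ ?_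
      · rw [hcardκ, hcardι]; omega
      · rw [hcardι]; omega
    · intro P P'
      refine size2 w j Q hQ1 hM (α P ∪ β P') (hcard P P') hw' ?_ ?_
      · rw [hcardκ, Fintype.card_fin, hc1]
      · rw [hcardC1]
  obtain ⟨m, hm⟩ : ∃ m, m = Fintype.card (((Lab n q × Fin c1) × Fin b) ⊕ YY n q L) := ⟨_, rfl⟩
  have hm' : m = b * T + (4 * D * (b * T) + 1) := by
    rw [hm, Fintype.card_sum, Fintype.card_prod, hcardι, hcardκ, hcardY, hjL, Nat.mul_comm T b]
  have hDw : D * w = 4 * D * (b * T) := by rw [hw]; ring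
  refine ⟨m, w, by omega, ?_, by omega, ?_⟩
  · have : 1 * w ≤ D * w := Nat.mul_le_mul_right _ hD
    omega
  · exact transfer (Fintype.equivFinOfCardEq hm.symm).symm w hpack

end Pool.Agent.Lib.MP_1a5e21_co
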