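import Mathlib

set_option autoImplicit false

namespace Pool.Agent.Lib.MP_1a5e21_co

open Finset

/-- The set of vertices related to some vertex of `S`. -/
def nb {V : Type} [Fintype V] [DecidableEq V] (R : V → V → Prop) [DecidableRel R]
    (S : Finset V) : Finset V :=
  univ.filter (fun b => ∃ a ∈ S, R a b)

theorem mem_nb {V : Type} [Fintype V] [DecidableEq V] (R : V → V → Prop) [DecidableRel R]
    (S : Finset V) (b : V) : b ∈ nb R S ↔ ∃ a ∈ S, R a b := by
  simp [nb]

/-- Hall's theorem for a relation invariant under a set of permutations: it is enough to check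
the invariant sets. -/
theorem hall_inv {V : Type} [Fintype V] [DecidableEq V] (R : V → V → Prop) [DecidableRel R]
    (Γ : Set (Equiv.Perm V)) (hΓ : ∀ π ∈ Γ, ∀ a b, R a b → R (π a) (π b))
    (h : ∀ S : Finset V, (∀ π ∈ Γ, ∀ a ∈ S, π a ∈ S) → S.card ≤ (nb R S).card) :
    ∃ σ : Equiv.Perm V, ∀ a, R a (σ a) := by
  classical
  have key : ∀ A : Finset V, A.card ≤ (nb R A).card := by
    let φ : Finset V → ℤ := fun S => ((nb R S).card : ℤ) - (S.card : ℤ)
    obtain ⟨S0, -, hS0⟩ := Finset.exists_min_image (univ : Finset (Finset V)) φ ⟨∅, mem_univ _⟩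
    have hne : (univ.filter (fun S : Finset V => φ S = φ S0)).Nonempty := ⟨S0, by simp⟩
    obtain ⟨S1, hS1m, hS1⟩ := Finset.exists_max_image
      (univ.filter (fun S : Finset V => φ S = φ S0)) Finset.card hne
    have hφ1 : φ S1 = φ S0 := by simpa using hS1m
    have hinv : ∀ π ∈ Γ, ∀ a ∈ S1, π a ∈ S1 := by
      intro π hπ
      set S2 : Finset V := S1.map π.toEmbedding with hS2
      have hc2 : S2.card = S1.card := by rw [hS2, Finset.card_map]
      -- the neighbourhood of the image contains the image of the neighbourhood, with equality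
      -- of cardinalities obtained through minimality of `S1`
      have hsub : nb R S1 ⊆ nb R S1 := subset_rfl
      have hmap : (nb R S1).map π.toEmbedding ⊆ nb R S2 := by
        intro b hb
        rw [Finset.mem_map] at hb
        obtain ⟨c, hc, rfl⟩ := hb
        rw [mem_nb] at hc ⊢
        obtain ⟨a, ha, hac⟩ := hc
        refine ⟨π a, ?_, hΓ π hπ a c hac⟩
        rw [hS2, Finset.mem_map]
        exact ⟨a, ha, rfl⟩
      -- reverse inclusion: use that `π` has finite order
      have hinvR : ∀ a b, R (π a) (π b) → R a b := by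
        intro a b hab
        have hiter : ∀ n : ℕ, R ((π ^ (n + 1)) a) ((π ^ (n + 1)) b) := by
          intro n
          induction n with
          | zero => simpa using hab
          | succ n ih =>
            have := hΓ π hπ _ _ ih
            rw [pow_succ' π (n + 1)]
            simpa [Equiv.Perm.mul_apply] using this
        have hord := orderOf_pos π
        have h1 := hiter (orderOf π - 1)
        have h2 : orderOf π - 1 + 1 = orderOf π := by omega
        rw [h2, pow_orderOf_eq_one] at h1
        simpa using h1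
      have hmap' : nb R S2 ⊆ (nb R S1).map π.toEmbedding := by
        intro b hb
        rw [mem_nb] at hb
        obtain ⟨a, ha, hab⟩ := hb
        rw [hS2, Finset.mem_map] at ha
        obtain ⟨a', ha', rfl⟩ := ha
        rw [Finset.mem_map]
        refine ⟨π.symm b, ?_, by simp⟩
        rw [mem_nb]
        refine ⟨a', ha', hinvR _ _ ?_⟩
        simpa using hab
      have hnb2 : (nb R S2).card = (nb R S1).card := by
        rw [Finset.Subset.antisymm hmap' hmap, Finset.card_map]
      have hφ2 : φ S2 = φ S0 := by
        rw [← hφ1]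
        simp only [φ, hnb2, hc2]
      have hU : nb R (S1 ∪ S2) = nb R S1 ∪ nb R S2 := by
        ext b
        simp only [mem_nb, Finset.mem_union]
        constructor
        · rintro ⟨a, ha | ha, hab⟩
          · exact Or.inl ⟨a, ha, hab⟩
          · exact Or.inr ⟨a, ha, hab⟩
        · rintro (⟨a, ha, hab⟩ | ⟨a, ha, hab⟩)
          · exact ⟨a, Or.inl ha, hab⟩
          · exact ⟨a, Or.inr ha, hab⟩
      have hI : nb R (S1 ∩ S2) ⊆ nb R S1 ∩ nb R S2 := by
        intro b
        simp only [mem_nb, Finset.mem_inter]
        rintro ⟨a, ⟨ha1, ha2⟩, hab⟩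
        exact ⟨⟨a, ha1, hab⟩, ⟨a, ha2, hab⟩⟩
      have hcU : (nb R (S1 ∪ S2)).card + (nb R S1 ∩ nb R S2).card
          = (nb R S1).card + (nb R S2).card := by
        rw [hU]; exact Finset.card_union_add_card_inter _ _
      have hcI := Finset.card_le_card hI
      have hcS : (S1 ∪ S2).card + (S1 ∩ S2).card = S1.card + S2.card :=
        Finset.card_union_add_card_inter _ _
      have hminI := hS0 (S1 ∩ S2) (mem_univ _)
      have hminU := hS0 (S1 ∪ S2) (mem_univ _)
      have hφU : φ (S1 ∪ S2) = φ S0 := by
        simp only [φ] at *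
        omega
      have hmax := hS1 (S1 ∪ S2) (by simp [hφU])
      have heq : S1 = S1 ∪ S2 := Finset.eq_of_subset_of_card_le Finset.subset_union_left hmax
      intro a ha
      rw [heq]
      apply Finset.mem_union_right
      rw [hS2, Finset.mem_map]
      exact ⟨a, ha, rfl⟩
    have h1 := h S1 hinv
    intro A
    have h2 := hS0 A (mem_univ _)
    simp only [φ] at *
    omega
  have hex := (Fintype.all_card_le_filter_rel_iff_exists_injective R).1 (by
    intro A
    have := key A
    simpa [nb] using this)
  obtain ⟨f, hf, hR⟩ := hex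
  exact ⟨Equiv.ofBijective f (Finite.injective_iff_bijective.mp hf), fun a => by simpa using hR a⟩

theorem perm_avoid {ι : Type} [Fintype ι] [DecidableEq ι] (E E' : Finset ι)
    (h : E.card + E'.card ≤ Fintype.card ι) : ∃ g : Equiv.Perm ι, ∀ i ∈ E, g i ∉ E' := by
  classical
  have h1 : E.card ≤ (univ \ E').card := by
    rw [Finset.card_univ_sdiff]; omega
  obtain ⟨F, hF, hFc⟩ := Finset.exists_subset_card_eq h1
  let e : {x // x ∈ E} ≃ {x // x ∈ F} := Finset.equivOfCardEq hFc.symm
  refine ⟨Equiv.extendSubtype e, ?_⟩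
  intro i hi
  have := Equiv.extendSubtype_mem e i hi
  have h2 := hF this
  simpa using h2

theorem perm_avoid_fix {ι : Type} [Fintype ι] [DecidableEq ι] (E E' : Finset ι) (j : ι)
    (hj : j ∉ E) (hj' : j ∉ E')
    (h : E.card + E'.card + 1 ≤ Fintype.card ι) :
    ∃ g : Equiv.Perm ι, g j = j ∧ ∀ i ∈ E, g i ∉ E' := by
  classical
  obtain ⟨g, hg⟩ := perm_avoid E (insert j E') (by rw [Finset.card_insert_of_notMem hj']; omega)
  refine ⟨g.trans (Equiv.swap (g j) j), by simp, ?_⟩
  intro i hi
  have h1 := hg i hi
  rw [Finset.mem_insert, not_or] at h1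
  have h2 : g i ≠ g j := fun hh => hj (by rw [← g.injective hh]; exact hi)
  rw [Equiv.trans_apply, Equiv.swap_apply_of_ne_of_ne h2 h1.1]
  exact h1.2

end Pool.Agent.Lib.MP_1a5e21_co
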