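import Pool.Agent.Lib.MP_1a5e21_co.Count

set_option autoImplicit false

namespace Pool.Agent.Lib.MP_1a5e21_co

open Finset

section
variable {ι κ Y : Type} [Fintype ι] [DecidableEq ι] [Fintype κ] [DecidableEq κ]
  [Fintype Y] [DecidableEq Y]

omit [DecidableEq ι] [DecidableEq κ] in
theorem sz_le (z : ι → Finset κ) : sz z ≤ Fintype.card κ * Fintype.card ι := by
  unfold sz
  calc ∑ j, (z j).card ≤ ∑ _j : ι, Fintype.card κ :=
        Finset.sum_le_sum (fun j _ => Finset.card_le_univ _)
    _ = Fintype.card κ * Fintype.card ι := by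
        rw [Finset.sum_const, Finset.card_univ, smul_eq_mul, Nat.mul_comm]

/-- One set of empty blocks. -/
theorem size1_one [Nonempty κ] (w a0 Q : ℕ) (hQ : 1 ≤ Q)
    (hM : Fintype.card Y ≤ Q * (w - Fintype.card κ * Fintype.card ι - a0))
    (A : Finset Y) (hA : A.card ≤ a0) (hw : Fintype.card κ * Fintype.card ι + a0 ≤ w)
    (E : Finset ι) (hE : E.Nonempty) :
    (Fintype.card κ) ^ (E.card - 1) *
      ∑ z ∈ univ.filter (fun z : ι → Finset κ => emp z = E), gA Y w ∅ z ≤
    Q ^ (Fintype.card κ + (E.card - 1) + a0) *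
      ∑ z ∈ univ.filter (fun z : ι → Finset κ => emp z = ∅ ∧ (ful z).Nonempty), gA Y w A z := by
  classical
  obtain ⟨j0, hj0⟩ := hE
  set E' := E.erase j0 with hE'
  have hcE' : E'.card = E.card - 1 := Finset.card_erase_of_mem hj0
  let f : (ι → Finset κ) × (E' → κ) → (ι → Finset κ) := fun p j =>
    if h : j ∈ E' then {p.2 ⟨j, h⟩} else if j = j0 then univ else p.1 j
  have hj0' : j0 ∉ E' := Finset.notMem_erase j0 E
  have hfE' : ∀ p j (h : j ∈ E'), f p j = {p.2 ⟨j, h⟩} := fun p j h => by simp [f, h]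
  have hfj0 : ∀ p, f p j0 = univ := fun p => by simp [f, hj0']
  have hfo : ∀ p j, j ∉ E → f p j = p.1 j := by
    intro p j hj
    have h1 : j ∉ E' := fun h => hj (Finset.mem_of_mem_erase h)
    have h2 : j ≠ j0 := fun h => hj (h ▸ hj0)
    simp [f, h1, h2]
  have hcard : (Fintype.card κ) ^ (E.card - 1) *
      ∑ z ∈ univ.filter (fun z : ι → Finset κ => emp z = E), gA Y w ∅ z
      = ∑ p ∈ (univ.filter (fun z : ι → Finset κ => emp z = E)) ×ˢ (univ : Finset (E' → κ)),
        gA Y w ∅ p.1 := by
    rw [Finset.sum_product]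
    simp only [Finset.sum_const, Finset.card_univ, smul_eq_mul]
    rw [← Finset.mul_sum, Fintype.card_fun, Fintype.card_coe, hcE']
  rw [hcard, Finset.mul_sum]
  apply sum_inj _ _ f
  · intro p hp
    simp only [Finset.mem_product, Finset.mem_filter, Finset.mem_univ, true_and, and_true] at hp ⊢
    constructor
    · ext j
      simp only [emp, Finset.mem_filter, Finset.mem_univ, true_and, Finset.notMem_empty, iff_false]
      by_cases h : j ∈ E'
      · rw [hfE' p j h]; simp
      · by_cases h2 : j = j0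
        · rw [h2, hfj0]; exact Finset.univ_nonempty.ne_empty
        · have h3 : j ∉ E := fun h4 => h (Finset.mem_erase.mpr ⟨h2, h4⟩)
          rw [hfo p j h3]
          intro h4
          apply h3
          rw [← hp]
          simp [emp, h4]
    · exact ⟨j0, by simp [ful, hfj0]⟩
  · intro p hp q hq heq
    simp only [Finset.coe_product, Finset.coe_filter, Finset.mem_univ, true_and,
      Finset.coe_univ, Set.mem_prod, Set.mem_ofPred_eq, Set.mem_univ, and_true] at hp hq
    apply Prod.ext
    · funext j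
      by_cases h : j ∈ E
      · have h1 : p.1 j = ∅ := by
          have : j ∈ emp p.1 := by rw [hp]; exact h
          simpa [emp] using this
        have h2 : q.1 j = ∅ := by
          have : j ∈ emp q.1 := by rw [hq]; exact h
          simpa [emp] using this
        rw [h1, h2]
      · have := congrFun heq j
        rwa [hfo p j h, hfo q j h] at this
    · funext j
      have := congrFun heq j.1
      rw [hfE' p j.1 j.2, hfE' q j.1 j.2, Finset.singleton_inj] at this
      exact this
  · intro p hp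
    simp only [Finset.mem_product, Finset.mem_filter, Finset.mem_univ, true_and, and_true] at hp
    have hsz : sz (f p) = sz p.1 + ((E.card - 1) + Fintype.card κ) := by
      have h1 : ∀ j, (f p j).card = (p.1 j).card + ((if j ∈ E' then 1 else 0) +
          (if j = j0 then Fintype.card κ else 0)) := by
        intro j
        by_cases h : j ∈ E'
        · have hne : j ≠ j0 := fun h2 => hj0' (h2 ▸ h)
          have hem : p.1 j = ∅ := by
            have : j ∈ emp p.1 := by rw [hp]; exact Finset.mem_of_mem_erase h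
            simpa [emp] using this
          rw [hfE' p j h, hem]
          simp [h, hne]
        · by_cases h2 : j = j0
          · have hem : p.1 j0 = ∅ := by
              have : j0 ∈ emp p.1 := by rw [hp]; exact hj0
              simpa [emp] using this
            rw [h2, hfj0, hem]
            simp [hj0', Finset.card_univ]
          · have h3 : j ∉ E := fun h4 => h (Finset.mem_erase.mpr ⟨h2, h4⟩)
            rw [hfo p j h3]
            simp [h, h2]
      unfold sz
      rw [Finset.sum_congr rfl (fun j _ => h1 j), Finset.sum_add_distrib, Finset.sum_add_distrib]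
      congr 1
      rw [Finset.sum_ite_mem]
      simp [hcE']
    have := gA_compare w (Fintype.card κ * Fintype.card ι) a0 Q
      (Fintype.card κ + (E.card - 1)) hQ hM A hA hw p.1 (f p) (by omega) (by omega) (sz_le _)
    exact this

theorem size1 [Nonempty κ] [Nonempty ι] (w a0 Q : ℕ) (hQ : 1 ≤ Q)
    (hM : Fintype.card Y ≤ Q * (w - Fintype.card κ * Fintype.card ι - a0))
    (A : Finset Y) (hA : A.card ≤ a0) (hw : Fintype.card κ * Fintype.card ι + a0 ≤ w)
    (hb : Fintype.card κ = 16 * Q ^ 3)
    (hT : Fintype.card κ + a0 + 2 ≤ Fintype.card ι) (hT' : 5 ≤ Fintype.card ι) :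
    2 * (univ.filter (fun p : VV ι κ Y w => Fintype.card ι ≤ 2 * (emp p.1.1).card)).card ≤
        (univ.filter (fun r : VV ι κ Y w => (emp r.1.1 = ∅ ∧ (ful r.1.1).Nonempty) ∧
          A ⊆ r.1.2)).card := by
  classical
  rw [card_VV w (fun z => emp z = ∅ ∧ (ful z).Nonempty) A]
  have h0 : (univ.filter (fun p : VV ι κ Y w => Fintype.card ι ≤ 2 * (emp p.1.1).card)).card
      = ∑ z ∈ univ.filter (fun z : ι → Finset κ => Fintype.card ι ≤ 2 * (emp z).card),
        gA Y w ∅ z := by
    rw [← card_VV w (fun z : ι → Finset κ => Fintype.card ι ≤ 2 * (emp z).card) (∅ : Finset Y)]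
    congr 1
    ext p
    simp
  rw [h0]
  set Z := ∑ z ∈ univ.filter (fun z : ι → Finset κ => emp z = ∅ ∧ (ful z).Nonempty), gA Y w A z
    with hZ
  set b := Fintype.card κ with hbdef
  set T := Fintype.card ι with hTdef
  -- split according to the set of empty blocks
  have hsplit : ∑ z ∈ univ.filter (fun z : ι → Finset κ => T ≤ 2 * (emp z).card), gA Y w ∅ z
      = ∑ E ∈ univ.filter (fun E : Finset ι => T ≤ 2 * E.card),
        ∑ z ∈ univ.filter (fun z : ι → Finset κ => emp z = E), gA Y w ∅ z := by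
    rw [← Finset.sum_fiberwise_of_maps_to (s := univ.filter
      (fun z : ι → Finset κ => T ≤ 2 * (emp z).card))
      (t := univ.filter (fun E : Finset ι => T ≤ 2 * E.card)) (g := fun z => emp z)]
    · apply Finset.sum_congr rfl
      intro E hE
      apply Finset.sum_congr _ (fun _ _ => rfl)
      ext z
      simp only [Finset.mem_filter, Finset.mem_univ, true_and] at hE ⊢
      constructor
      · exact fun h => h.2
      · exact fun h => ⟨by rw [h]; exact hE, h⟩
    · intro z hz
      simpa using hz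
  rw [hsplit]
  have hone : ∀ E ∈ univ.filter (fun E : Finset ι => T ≤ 2 * E.card),
      (4 * Q) ^ T * ∑ z ∈ univ.filter (fun z : ι → Finset κ => emp z = E), gA Y w ∅ z
        ≤ 16 * Q ^ (2 + b + a0) * Z := by
    intro E hE
    simp only [Finset.mem_filter, Finset.mem_univ, true_and] at hE
    have hEne : E.Nonempty := by
      rw [← Finset.card_pos]; omega
    have h1 := size1_one w a0 Q hQ hM A hA hw E hEne
    rw [← hbdef, ← hZ] at h1
    set SE := ∑ z ∈ univ.filter (fun z : ι → Finset κ => emp z = E), gA Y w ∅ z with hSE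
    set e := E.card - 1 with he
    have hQp : 0 < Q ^ e := Nat.pow_pos (by omega)
    have h2 : Q ^ e * ((4 * Q) ^ (2 * e) * SE) ≤ Q ^ e * (Q ^ (b + a0) * Z) := by
      calc Q ^ e * ((4 * Q) ^ (2 * e) * SE) = (16 * Q ^ 3) ^ e * SE := by
            rw [pow_mul, ← mul_assoc, ← mul_pow]; ring_nf
        _ = b ^ e * SE := by rw [hb]
        _ ≤ Q ^ (b + e + a0) * Z := h1
        _ = Q ^ e * (Q ^ (b + a0) * Z) := by
            rw [← mul_assoc, ← pow_add]; congr 2; ring
    have h3 : (4 * Q) ^ (2 * e) * SE ≤ Q ^ (b + a0) * Z := Nat.le_of_mul_le_mul_left h2 hQp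
    have h4 : (4 * Q) ^ T ≤ (4 * Q) ^ (2 * e + 2) := Nat.pow_le_pow_right (by omega) (by omega)
    calc (4 * Q) ^ T * SE ≤ (4 * Q) ^ (2 * e + 2) * SE := Nat.mul_le_mul_right _ h4
      _ = (4 * Q) ^ 2 * ((4 * Q) ^ (2 * e) * SE) := by ring
      _ ≤ (4 * Q) ^ 2 * (Q ^ (b + a0) * Z) := Nat.mul_le_mul_left _ h3
      _ = 16 * Q ^ (2 + b + a0) * Z := by ring
  have hsum : (4 * Q) ^ T * ∑ E ∈ univ.filter (fun E : Finset ι => T ≤ 2 * E.card),
        ∑ z ∈ univ.filter (fun z : ι → Finset κ => emp z = E), gA Y w ∅ z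
      ≤ 2 ^ T * (16 * Q ^ (2 + b + a0) * Z) := by
    rw [Finset.mul_sum]
    calc _ ≤ ∑ _E ∈ univ.filter (fun E : Finset ι => T ≤ 2 * E.card),
            (16 * Q ^ (2 + b + a0) * Z) := Finset.sum_le_sum hone
      _ ≤ ∑ _E : Finset ι, (16 * Q ^ (2 + b + a0) * Z) :=
          Finset.sum_le_sum_of_subset (Finset.filter_subset _ _)
      _ = 2 ^ T * (16 * Q ^ (2 + b + a0) * Z) := by
          rw [Finset.sum_const, Finset.card_univ, Fintype.card_finset, smul_eq_mul]
  set W := ∑ E ∈ univ.filter (fun E : Finset ι => T ≤ 2 * E.card),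
        ∑ z ∈ univ.filter (fun z : ι → Finset κ => emp z = E), gA Y w ∅ z with hW
  have hpow : 2 ^ T * (16 * Q ^ (2 + b + a0)) * 2 ≤ (4 * Q) ^ T := by
    have e1 : (4 * Q) ^ T = 2 ^ T * (2 ^ T * Q ^ T) := by
      rw [← mul_pow, ← mul_pow]; ring_nf
    have e2 : Q ^ (2 + b + a0) ≤ Q ^ T := Nat.pow_le_pow_right hQ (by omega)
    have e3 : 2 ^ 5 ≤ 2 ^ T := Nat.pow_le_pow_right (by norm_num) hT'
    calc 2 ^ T * (16 * Q ^ (2 + b + a0)) * 2 = 2 ^ T * (2 ^ 5 * Q ^ (2 + b + a0)) := by ring
      _ ≤ 2 ^ T * (2 ^ T * Q ^ T) := by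
          apply Nat.mul_le_mul_left
          exact Nat.mul_le_mul e3 e2
      _ = (4 * Q) ^ T := e1.symm
  have hpos : 0 < (4 * Q) ^ T := Nat.pow_pos (by omega)
  apply Nat.le_of_mul_le_mul_left _ hpos
  calc (4 * Q) ^ T * (2 * W) = 2 * ((4 * Q) ^ T * W) := by ring
    _ ≤ 2 * (2 ^ T * (16 * Q ^ (2 + b + a0) * Z)) := Nat.mul_le_mul_left _ hsum
    _ = (2 ^ T * (16 * Q ^ (2 + b + a0)) * 2) * Z := by ring
    _ ≤ (4 * Q) ^ T * Z := Nat.mul_le_mul_right _ hpow

end

section
variable {C1 C2 κ Y : Type} [Fintype C1] [DecidableEq C1] [Fintype C2] [DecidableEq C2]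
  [Fintype κ] [DecidableEq κ] [Fintype Y] [DecidableEq Y]

theorem size2 [Nonempty κ] [Nonempty C1] (w a0 Q : ℕ) (hQ : 1 ≤ Q)
    (hM : Fintype.card Y ≤ Q * (w - Fintype.card κ * Fintype.card (C1 × C2) - a0))
    (A : Finset Y) (hA : A.card ≤ a0) (hw : Fintype.card κ * Fintype.card (C1 × C2) + a0 ≤ w)
    (hc : Fintype.card C2 = 2 * Q * (2 * Q) ^ Fintype.card κ) (ha0 : a0 ≤ Fintype.card C1) :
    2 * (univ.filter (fun p : VV (C1 × C2) κ Y w =>
          2 * (emp p.1.1).card < Fintype.card (C1 × C2) ∧ ful p.1.1 = ∅)).card ≤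
        (univ.filter (fun r : VV (C1 × C2) κ Y w =>
          (2 * (emp r.1.1).card < Fintype.card (C1 × C2) ∧
          (ful r.1.1).Nonempty) ∧ A ⊆ r.1.2)).card := by
  classical
  rw [card_VV w (fun z => 2 * (emp z).card < Fintype.card (C1 × C2) ∧ (ful z).Nonempty) A]
  have h0 : (univ.filter (fun p : VV (C1 × C2) κ Y w =>
      2 * (emp p.1.1).card < Fintype.card (C1 × C2) ∧ ful p.1.1 = ∅)).card
      = ∑ z ∈ univ.filter (fun z : C1 × C2 → Finset κ =>
        2 * (emp z).card < Fintype.card (C1 × C2) ∧ ful z = ∅),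
        gA Y w ∅ z := by
    rw [← card_VV w (fun z : C1 × C2 → Finset κ =>
      2 * (emp z).card < Fintype.card (C1 × C2) ∧ ful z = ∅) (∅ : Finset Y)]
    congr 1
    ext p
    simp
  rw [h0]
  set Z := ∑ z ∈ univ.filter (fun z : C1 × C2 → Finset κ =>
    2 * (emp z).card < Fintype.card (C1 × C2) ∧ (ful z).Nonempty), gA Y w A z
    with hZ
  set W := ∑ z ∈ univ.filter (fun z : C1 × C2 → Finset κ =>
        2 * (emp z).card < Fintype.card (C1 × C2) ∧ ful z = ∅), gA Y w ∅ z with hW
  set b := Fintype.card κ with hbdef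
  set j := Fintype.card C1 with hjdef
  let f : (C1 × C2 → Finset κ) × (C1 → C2) → (C1 × C2 → Finset κ) × (C1 → Finset κ) :=
    fun p => (fun c => if c.2 = p.2 c.1 then univ else p.1 c, fun c => p.1 (c, p.2 c))
  have hmain : (Fintype.card C2) ^ j * W ≤ Q ^ (b * j + a0) * ((2 ^ b) ^ j * Z) := by
    have e1 : (Fintype.card C2) ^ j * W = ∑ p ∈ (univ.filter (fun z : C1 × C2 → Finset κ =>
        2 * (emp z).card < Fintype.card (C1 × C2) ∧ ful z = ∅)) ×ˢ (univ : Finset (C1 → C2)),
        gA Y w ∅ p.1 := by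
      rw [Finset.sum_product]
      simp only [Finset.sum_const, Finset.card_univ, smul_eq_mul]
      rw [← Finset.mul_sum, Fintype.card_fun]
    have e2 : Q ^ (b * j + a0) * ((2 ^ b) ^ j * Z) = ∑ p ∈
        (univ.filter (fun z : C1 × C2 → Finset κ =>
        2 * (emp z).card < Fintype.card (C1 × C2) ∧ (ful z).Nonempty)) ×ˢ
        (univ : Finset (C1 → Finset κ)), Q ^ (b * j + a0) * gA Y w A p.1 := by
      rw [Finset.sum_product]
      simp only [Finset.sum_const, Finset.card_univ, smul_eq_mul]
      rw [← Finset.mul_sum, ← Finset.mul_sum, Fintype.card_fun, Fintype.card_finset]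
      ring
    rw [e1, e2]
    apply sum_inj _ _ f
    · intro p hp
      simp only [Finset.mem_product, Finset.mem_filter, Finset.mem_univ, true_and,
        and_true] at hp ⊢
      constructor
      · have hsub : emp (f p).1 ⊆ emp p.1 := by
          intro c hc'
          simp only [emp, f, Finset.mem_filter, Finset.mem_univ, true_and] at hc' ⊢
          by_cases h : c.2 = p.2 c.1
          · rw [if_pos h] at hc'
            exact absurd hc' Finset.univ_nonempty.ne_empty
          · rwa [if_neg h] at hc'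
        have := Finset.card_le_card hsub
        omega
      · obtain ⟨c⟩ := (inferInstance : Nonempty C1)
        exact ⟨(c, p.2 c), by simp [ful, f]⟩
    · intro p hp q hq heq
      simp only [Finset.coe_product, Finset.coe_filter, Finset.mem_univ, true_and,
        Finset.coe_univ, Set.mem_prod, Set.mem_ofPred_eq, Set.mem_univ, and_true] at hp hq
      have hfp : ∀ c, p.1 c ≠ univ := by
        intro c hc'
        have : c ∈ ful p.1 := by simp [ful, hc']
        rw [hp.2] at this
        simp at this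
      have hfq : ∀ c, q.1 c ≠ univ := by
        intro c hc'
        have : c ∈ ful q.1 := by simp [ful, hc']
        rw [hq.2] at this
        simp at this
      have h1 : ∀ c : C1 × C2, (if c.2 = p.2 c.1 then univ else p.1 c)
          = (if c.2 = q.2 c.1 then univ else q.1 c) := fun c =>
        congrFun (congrArg Prod.fst heq) c
      have h2 : ∀ c : C1, p.1 (c, p.2 c) = q.1 (c, q.2 c) := fun c =>
        congrFun (congrArg Prod.snd heq) c
      have h3 : p.2 = q.2 := by
        funext c
        by_contra hne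
        have := h1 (c, p.2 c)
        simp only [if_true] at this
        rw [if_neg hne] at this
        exact hfq _ this.symm
      apply Prod.ext
      · funext c
        by_cases h : c.2 = p.2 c.1
        · have h4 := h2 c.1
          rw [← h3, ← h] at h4
          exact h4
        · have h4 := h1 c
          rw [if_neg h, ← h3, if_neg h] at h4
          exact h4
      · exact h3
    · intro p hp
      have hle : ∀ c, (p.1 c).card ≤ ((f p).1 c).card := by
        intro c
        simp only [f]
        by_cases h : c.2 = p.2 c.1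
        · rw [if_pos h]; exact Finset.card_le_card (Finset.subset_univ _)
        · rw [if_neg h]
      have hle2 : ∀ c : C1 × C2, ((f p).1 c).card ≤ (p.1 c).card +
          (if c.2 = p.2 c.1 then b else 0) := by
        intro c
        simp only [f]
        by_cases h : c.2 = p.2 c.1
        · rw [if_pos h, if_pos h, Finset.card_univ]; omega
        · rw [if_neg h, if_neg h]; omega
      have s1 : sz p.1 ≤ sz (f p).1 := Finset.sum_le_sum (fun c _ => hle c)
      have s2 : sz (f p).1 ≤ sz p.1 + b * j := by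
        calc sz (f p).1 ≤ ∑ c : C1 × C2, ((p.1 c).card + (if c.2 = p.2 c.1 then b else 0)) :=
              Finset.sum_le_sum (fun c _ => hle2 c)
          _ = sz p.1 + b * j := by
              rw [Finset.sum_add_distrib]
              congr 1
              rw [Fintype.sum_prod_type]
              simp [hjdef, Nat.mul_comm]
      exact gA_compare w (b * Fintype.card (C1 × C2)) a0 Q (b * j) hQ hM A hA hw p.1 (f p).1
        s1 s2 (sz_le _)
  have hj1 : 1 ≤ j := Fintype.card_pos
  have hpow : 2 * (Q ^ (b * j + a0) * (2 ^ b) ^ j) ≤ (Fintype.card C2) ^ j := by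
    rw [hc, mul_pow (2 * Q) _ j, mul_pow 2 Q j, ← pow_mul, ← pow_mul]
    calc 2 * (Q ^ (b * j + a0) * 2 ^ (b * j)) = 2 ^ 1 * Q ^ a0 * (2 * Q) ^ (b * j) := by
          rw [mul_pow, pow_add]; ring
      _ ≤ 2 ^ j * Q ^ j * (2 * Q) ^ (b * j) := by
          apply Nat.mul_le_mul_right
          exact Nat.mul_le_mul (Nat.pow_le_pow_right (by norm_num) hj1)
            (Nat.pow_le_pow_right hQ ha0)
  have hpos : 0 < (Fintype.card C2) ^ j := by
    apply Nat.pow_pos
    rw [hc]
    positivity
  apply Nat.le_of_mul_le_mul_left _ hpos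
  calc (Fintype.card C2) ^ j * (2 * W) = 2 * ((Fintype.card C2) ^ j * W) := by ring
    _ ≤ 2 * (Q ^ (b * j + a0) * ((2 ^ b) ^ j * Z)) := Nat.mul_le_mul_left _ hmain
    _ = (2 * (Q ^ (b * j + a0) * (2 ^ b) ^ j)) * Z := by ring
    _ ≤ (Fintype.card C2) ^ j * Z := Nat.mul_le_mul_right _ hpow

end

end Pool.Agent.Lib.MP_1a5e21_co
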