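import Pool.Agent.Lib.MP_1a5e21_co.Hall

set_option autoImplicit false

namespace Pool.Agent.Lib.MP_1a5e21_co

open Finset

/-- A set is given by its blocks and its remaining part. -/
abbrev Obj (ι κ Y : Type) := (ι → Finset κ) × Finset Y

section
variable {ι κ Y : Type} [Fintype ι] [DecidableEq ι] [Fintype κ] [DecidableEq κ]
  [Fintype Y] [DecidableEq Y]

def size (p : Obj ι κ Y) : ℕ := ∑ j, (p.1 j).card + p.2.card

/-- the empty blocks -/
def emp (z : ι → Finset κ) : Finset ι := univ.filter (fun j => z j = ∅)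

/-- the full blocks -/
def ful (z : ι → Finset κ) : Finset ι := univ.filter (fun j => z j = univ)

def Dj (p q : Obj ι κ Y) : Prop := (∀ j, Disjoint (p.1 j) (q.1 j)) ∧ Disjoint p.2 q.2

def Rel (α β : Finset Y → Finset Y) (p q : Obj ι κ Y) : Prop :=
  (∀ j, p.1 j ≠ ∅ ∨ q.1 j ≠ ∅) ∧
    ((∃ j, p.1 j = univ ∧ q.1 j = univ) ∨ β p.2 ⊆ q.2 ∨ α q.2 ⊆ p.2)

omit [Fintype ι] [DecidableEq ι] [Fintype Y] [DecidableEq Y] in
theorem rel_inter [Nonempty κ] (N0 : ℕ) (α β : Finset Y → Finset Y)
    (hab : ∀ P Q : Finset Y, N0 ≤ P.card → N0 ≤ Q.card →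
      ¬ (Disjoint P (α Q) ∧ Disjoint (β P) Q))
    (hα : ∃ y0, ∀ Q, y0 ∈ α Q) (hβ : ∃ y0, ∀ Q, y0 ∈ β Q)
    (p q t u : Obj ι κ Y) (hp : N0 ≤ p.2.card) (hq : N0 ≤ q.2.card) (ht : N0 ≤ t.2.card)
    (hu : N0 ≤ u.2.card) (h1 : Rel α β p q) (h2 : Rel α β t u) (h3 : Dj p t) (h4 : Dj q u) :
    False := by
  have hun : ∀ x : Finset κ, Disjoint univ x → x = ∅ := by
    intro x hx
    have : (univ : Finset κ) ∩ x = ∅ := Finset.disjoint_iff_inter_eq_empty.mp hx
    simpa using this
  obtain ⟨e1, f1 | b1 | a1⟩ := h1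
  · obtain ⟨j, hj1, hj2⟩ := f1
    have h5 := h3.1 j
    have h6 := h4.1 j
    rw [hj1] at h5
    rw [hj2] at h6
    rcases h2.1 j with h | h
    · exact h (hun _ h5)
    · exact h (hun _ h6)
  all_goals obtain ⟨e2, f2 | b2 | a2⟩ := h2
  · obtain ⟨j, hj1, hj2⟩ := f2
    have h5 := (h3.1 j).symm
    have h6 := (h4.1 j).symm
    rw [hj1] at h5
    rw [hj2] at h6
    rcases e1 j with h | h
    · exact h (hun _ h5)
    · exact h (hun _ h6)
  · obtain ⟨y0, hy0⟩ := hβ
    exact Finset.disjoint_left.mp h4.2 (b1 (hy0 _)) (b2 (hy0 _))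
  · refine hab p.2 u.2 hp hu ⟨?_, ?_⟩
    · exact Finset.disjoint_of_subset_right a2 h3.2
    · exact Finset.disjoint_of_subset_left b1 h4.2
  · obtain ⟨j, hj1, hj2⟩ := f2
    have h5 := (h3.1 j).symm
    have h6 := (h4.1 j).symm
    rw [hj1] at h5
    rw [hj2] at h6
    rcases e1 j with h | h
    · exact h (hun _ h5)
    · exact h (hun _ h6)
  · refine hab t.2 q.2 ht hq ⟨?_, ?_⟩
    · exact (Finset.disjoint_of_subset_left a1 h3.2).symm
    · exact (Finset.disjoint_of_subset_right b2 h4.2).symm
  · obtain ⟨y0, hy0⟩ := hα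
    exact Finset.disjoint_left.mp h3.2 (a1 (hy0 _)) (a2 (hy0 _))

/-- permuting the blocks -/
def act (g : Equiv.Perm ι) (p : Obj ι κ Y) : Obj ι κ Y := (fun j => p.1 (g.symm j), p.2)

omit [DecidableEq ι] [Fintype κ] [DecidableEq κ] [Fintype Y] [DecidableEq Y] in
theorem size_act (g : Equiv.Perm ι) (p : Obj ι κ Y) : size (act g p) = size p := by
  unfold size act
  simp only
  congr 1
  exact Equiv.sum_comp g.symm (fun j => (p.1 j).card)

abbrev VV (ι κ Y : Type) [Fintype ι] (w : ℕ) := {p : Obj ι κ Y // size p = w}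

def actV (w : ℕ) (g : Equiv.Perm ι) : Equiv.Perm (VV ι κ Y w) where
  toFun p := ⟨act g p.1, by rw [size_act]; exact p.2⟩
  invFun p := ⟨act g.symm p.1, by rw [size_act]; exact p.2⟩
  left_inv p := by
    apply Subtype.ext
    simp [act]
  right_inv p := by
    apply Subtype.ext
    simp [act]

theorem pack [Nonempty κ] [Nonempty ι] (w N0 : ℕ) (α β : Finset Y → Finset Y)
    (hw : ∀ p : Obj ι κ Y, size p = w → N0 ≤ p.2.card)
    (hab : ∀ P Q : Finset Y, N0 ≤ P.card → N0 ≤ Q.card →
      ¬ (Disjoint P (α Q) ∧ Disjoint (β P) Q))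
    (hα : ∃ y0, ∀ Q, y0 ∈ α Q) (hβ : ∃ y0, ∀ Q, y0 ∈ β Q)
    (h1 : ∀ P Q : Finset Y,
      2 * (univ.filter (fun p : VV ι κ Y w => Fintype.card ι ≤ 2 * (emp p.1.1).card)).card ≤
        (univ.filter (fun r : VV ι κ Y w => (emp r.1.1 = ∅ ∧ (ful r.1.1).Nonempty) ∧
          α P ∪ β Q ⊆ r.1.2)).card)
    (h2 : ∀ P Q : Finset Y,
      2 * (univ.filter (fun p : VV ι κ Y w => 2 * (emp p.1.1).card < Fintype.card ι ∧
          ful p.1.1 = ∅)).card ≤
        (univ.filter (fun r : VV ι κ Y w => (2 * (emp r.1.1).card < Fintype.card ι ∧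
          (ful r.1.1).Nonempty) ∧ α P ∪ β Q ⊆ r.1.2)).card) :
    ∃ σ : Equiv.Perm (VV ι κ Y w), ∀ p q, Dj p.1 q.1 → ¬ Dj (σ p).1 (σ q).1 := by
  classical
  let R : VV ι κ Y w → VV ι κ Y w → Prop := fun p q => Rel α β p.1 q.1
  obtain ⟨σ, hσ⟩ := hall_inv R (Set.range (actV (κ := κ) (Y := Y) w)) (by
    rintro π ⟨g, rfl⟩ a b hab'
    obtain ⟨hE, hF⟩ := hab'
    refine ⟨fun j => hE (g.symm j), ?_⟩
    rcases hF with ⟨j, hj1, hj2⟩ | hb | ha
    · left
      exact ⟨g j, by simpa [actV, act] using hj1, by simpa [actV, act] using hj2⟩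
    · right; left; simpa [actV, act] using hb
    · right; right; simpa [actV, act] using ha) (by
    intro S hS
    set N := nb R S with hN
    have hinv : ∀ (g : Equiv.Perm ι) (a : VV ι κ Y w), a ∈ S → actV w g a ∈ S :=
      fun g a ha => hS _ ⟨g, rfl⟩ a ha
    let G : Finset (VV ι κ Y w) := univ.filter (fun p =>
      2 * (emp p.1.1).card < Fintype.card ι ∧ (ful p.1.1).Nonempty)
    let B1 : Finset (VV ι κ Y w) := univ.filter (fun p => Fintype.card ι ≤ 2 * (emp p.1.1).card)
    let B2 : Finset (VV ι κ Y w) := univ.filter (fun p =>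
      2 * (emp p.1.1).card < Fintype.card ι ∧ ful p.1.1 = ∅)
    -- good sets of `S` are neighbours of `S`
    have hG : S ∩ G ⊆ N := by
      intro a ha
      rw [Finset.mem_inter] at ha
      obtain ⟨haS, haG⟩ := ha
      simp only [G, Finset.mem_filter, Finset.mem_univ, true_and] at haG
      obtain ⟨he, j0, hj0⟩ := haG
      have hj0' : a.1.1 j0 = univ := by simpa [ful] using hj0
      have hj0e : j0 ∉ emp a.1.1 := by
        simp only [emp, Finset.mem_filter, Finset.mem_univ, true_and]
        rw [hj0']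
        exact Finset.univ_nonempty.ne_empty
      obtain ⟨g, hg0, hg⟩ := perm_avoid_fix (emp a.1.1) (emp a.1.1) j0 hj0e hj0e (by omega)
      rw [hN, mem_nb]
      refine ⟨actV w g a, hinv g a haS, ?_, Or.inl ⟨j0, ?_, hj0'⟩⟩
      · intro j
        by_contra hcon
        rw [not_or, not_not, not_not] at hcon
        have h5 : g.symm j ∈ emp a.1.1 := by
          simp only [emp, Finset.mem_filter, Finset.mem_univ, true_and]
          exact hcon.1
        have h6 := hg _ h5
        rw [Equiv.apply_symm_apply] at h6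
        apply h6
        simp only [emp, Finset.mem_filter, Finset.mem_univ, true_and]
        exact hcon.2
      · show a.1.1 (g.symm j0) = univ
        have : g.symm j0 = j0 := by rw [Equiv.symm_apply_eq, hg0]
        rw [this, hj0']
    -- avoiding empties for two sets with few empty blocks
    have hav : ∀ s r : VV ι κ Y w, 2 * (emp s.1.1).card < Fintype.card ι →
        2 * (emp r.1.1).card < Fintype.card ι →
        ∃ g : Equiv.Perm ι, ∀ j, (actV w g s).1.1 j ≠ ∅ ∨ r.1.1 j ≠ ∅ := by
      intro s r hs hr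
      obtain ⟨g, hg⟩ := perm_avoid (emp s.1.1) (emp r.1.1) (by omega)
      refine ⟨g, fun j => ?_⟩
      by_contra hcon
      rw [not_or, not_not, not_not] at hcon
      have h5 : g.symm j ∈ emp s.1.1 := by
        simp only [emp, Finset.mem_filter, Finset.mem_univ, true_and]
        exact hcon.1
      have h6 := hg _ h5
      rw [Equiv.apply_symm_apply] at h6
      apply h6
      simp only [emp, Finset.mem_filter, Finset.mem_univ, true_and]
      exact hcon.2
    have hι : 0 < Fintype.card ι := Fintype.card_pos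
    have hB1 : S ∩ B1 = ∅ ∨ B1 ⊆ N ∨ 2 * B1.card ≤ ((N ∩ G) \ S).card := by
      by_cases hE : S ∩ B1 = ∅
      · exact Or.inl hE
      right
      by_cases hsub : B1 ⊆ N
      · exact Or.inl hsub
      right
      obtain ⟨s, hs⟩ := Finset.nonempty_iff_ne_empty.mpr hE
      obtain ⟨t, htB, htN⟩ := Finset.not_subset.mp hsub
      rw [Finset.mem_inter] at hs
      refine (h1 t.1.2 s.1.2).trans (Finset.card_le_card ?_)
      intro r hr
      simp only [Finset.mem_filter, Finset.mem_univ, true_and] at hr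
      obtain ⟨⟨hr1, hr2⟩, hr3⟩ := hr
      have hall : ∀ j, r.1.1 j ≠ ∅ := by
        intro j hj
        have : j ∈ emp r.1.1 := by simpa [emp] using hj
        rw [hr1] at this
        simp at this
      rw [Finset.mem_sdiff, Finset.mem_inter]
      refine ⟨⟨?_, ?_⟩, ?_⟩
      · rw [hN, mem_nb]
        exact ⟨s, hs.1, fun j => Or.inr (hall j), Or.inr (Or.inl
          (Finset.union_subset_right hr3))⟩
      · simp only [G, Finset.mem_filter, Finset.mem_univ, true_and]
        refine ⟨?_, hr2⟩
        rw [hr1]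
        simpa using hι
      · intro hrS
        apply htN
        rw [hN, mem_nb]
        exact ⟨r, hrS, fun j => Or.inl (hall j), Or.inr (Or.inr
          (Finset.union_subset_left hr3))⟩
    have hB2 : S ∩ B2 = ∅ ∨ B2 ⊆ N ∨ 2 * B2.card ≤ ((N ∩ G) \ S).card := by
      by_cases hE : S ∩ B2 = ∅
      · exact Or.inl hE
      right
      by_cases hsub : B2 ⊆ N
      · exact Or.inl hsub
      right
      obtain ⟨s, hs⟩ := Finset.nonempty_iff_ne_empty.mpr hE
      obtain ⟨t, htB, htN⟩ := Finset.not_subset.mp hsub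
      rw [Finset.mem_inter] at hs
      obtain ⟨hsS, hsB⟩ := hs
      simp only [B2, Finset.mem_filter, Finset.mem_univ, true_and] at hsB htB
      refine (h2 t.1.2 s.1.2).trans (Finset.card_le_card ?_)
      intro r hr
      simp only [Finset.mem_filter, Finset.mem_univ, true_and] at hr
      obtain ⟨⟨hr1, hr2⟩, hr3⟩ := hr
      rw [Finset.mem_sdiff, Finset.mem_inter]
      refine ⟨⟨?_, ?_⟩, ?_⟩
      · obtain ⟨g, hg⟩ := hav s r hsB.1 hr1
        rw [hN, mem_nb]
        exact ⟨actV w g s, hinv g s hsS, hg, Or.inr (Or.inl (Finset.union_subset_right hr3))⟩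
      · simp only [G, Finset.mem_filter, Finset.mem_univ, true_and]
        exact ⟨hr1, hr2⟩
      · intro hrS
        apply htN
        obtain ⟨g, hg⟩ := hav r t hr1 htB.1
        rw [hN, mem_nb]
        exact ⟨actV w g r, hinv g r hrS, hg, Or.inr (Or.inr (Finset.union_subset_left hr3))⟩
    -- counting
    have hcover : ∀ U : Finset (VV ι κ Y w),
        U.card = (U ∩ G).card + (U ∩ B1).card + (U ∩ B2).card := by
      intro U
      have e1 : U = (U ∩ G) ∪ ((U ∩ B1) ∪ (U ∩ B2)) := by
        ext a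
        simp only [G, B1, B2, Finset.mem_union, Finset.mem_inter, Finset.mem_filter,
          Finset.mem_univ, true_and]
        have hor : (2 * (emp a.1.1).card < Fintype.card ι ∧ (ful a.1.1).Nonempty) ∨
            (Fintype.card ι ≤ 2 * (emp a.1.1).card) ∨
            (2 * (emp a.1.1).card < Fintype.card ι ∧ ful a.1.1 = ∅) := by
          rcases Nat.lt_or_ge (2 * (emp a.1.1).card) (Fintype.card ι) with hh | hh
          · rcases Finset.eq_empty_or_nonempty (ful a.1.1) with hf | hf
            · exact Or.inr (Or.inr ⟨hh, hf⟩)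
            · exact Or.inl ⟨hh, hf⟩
          · exact Or.inr (Or.inl hh)
        constructor
        · intro ha
          rcases hor with h | h | h
          · exact Or.inl ⟨ha, h⟩
          · exact Or.inr (Or.inl ⟨ha, h⟩)
          · exact Or.inr (Or.inr ⟨ha, h⟩)
        · rintro (h | h | h)
          · exact h.1
          · exact h.1
          · exact h.1
      have d1 : Disjoint (U ∩ B1) (U ∩ B2) := by
        rw [Finset.disjoint_left]
        intro a ha hb
        simp only [B1, B2, Finset.mem_inter, Finset.mem_filter, Finset.mem_univ, true_and] at ha hb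
        omega
      have d2 : Disjoint (U ∩ G) ((U ∩ B1) ∪ (U ∩ B2)) := by
        rw [Finset.disjoint_left]
        intro a ha hb
        simp only [G, B1, B2, Finset.mem_union, Finset.mem_inter, Finset.mem_filter,
          Finset.mem_univ, true_and] at ha hb
        rcases hb with hb | hb
        · omega
        · exact ha.2.2.ne_empty hb.2.2
      conv_lhs => rw [e1]
      rw [Finset.card_union_of_disjoint d2, Finset.card_union_of_disjoint d1]
      omega
    have c1 := hcover S
    have c2 := hcover N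
    clear_value G B1 B2 N
    clear hcover hav hinv h1 h2 hS
    have c3 : (S ∩ G).card + ((N ∩ G) \ S).card ≤ (N ∩ G).card := by
      rw [← Finset.card_union_of_disjoint]
      · apply Finset.card_le_card
        intro a ha
        rw [Finset.mem_union] at ha
        rcases ha with ha | ha
        · rw [Finset.mem_inter]
          exact ⟨hG ha, (Finset.mem_inter.mp ha).2⟩
        · exact (Finset.mem_sdiff.mp ha).1
      · rw [Finset.disjoint_left]
        intro a ha hb
        exact (Finset.mem_sdiff.mp hb).2 (Finset.mem_inter.mp ha).1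
    have c4 : (S ∩ B1).card ≤ (N ∩ B1).card ∨ 2 * (S ∩ B1).card ≤ ((N ∩ G) \ S).card := by
      rcases hB1 with h | h | h
      · left; rw [h]; simp
      · left
        apply Finset.card_le_card
        intro a ha
        rw [Finset.mem_inter] at ha ⊢
        exact ⟨h ha.2, ha.2⟩
      · right
        have := Finset.card_le_card (Finset.inter_subset_right (s₁ := S) (s₂ := B1))
        omega
    have c5 : (S ∩ B2).card ≤ (N ∩ B2).card ∨ 2 * (S ∩ B2).card ≤ ((N ∩ G) \ S).card := by
      rcases hB2 with h | h | h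
      · left; rw [h]; simp
      · left
        apply Finset.card_le_card
        intro a ha
        rw [Finset.mem_inter] at ha ⊢
        exact ⟨h ha.2, ha.2⟩
      · right
        have := Finset.card_le_card (Finset.inter_subset_right (s₁ := S) (s₂ := B2))
        omega
    omega)
  refine ⟨σ, fun p q hpq hpq' => ?_⟩
  exact rel_inter N0 α β hab hα hβ p.1 (σ p).1 q.1 (σ q).1 (hw _ p.2) (hw _ (σ p).2) (hw _ q.2)
    (hw _ (σ q).2) (hσ p) (hσ q) hpq hpq'

end

end Pool.Agent.Lib.MP_1a5e21_co
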